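import Mathlib
import Pool.Agent.Q320.SD.Lim

/-!
# Distinct values of `a_i + a_j + (j - i)`: an upper bound for `c'`

A sequence whose digits come from two finite sets `A, B ⊆ ℤ^d` (a random homomorphism of a large power of `A - B` onto
more than one third of `ℤ/p`, and a few translates) has few values `a_i + a_j + (j - i)`; so
`c' ≤ 1 / (2 - log |A+B| / log |A-B|)`. Simplices give `c' ≤ 1 / (2 - log 2 / log (1 + √2)) < 0.8241`.
-/

set_option autoImplicit false

open scoped Pointwise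

namespace Pool.Agent.Results.MP_15e61c_co.SumsAndDifferences

/-- The set `S(a) = {a_i + a_j + (j - i) : 1 ≤ i < j ≤ n}` of a sequence `a_1, ..., a_n`. -/
def S (n : ℕ) (a : ℕ → ℕ) : Set ℤ :=
  {z | ∃ i j : ℕ, 1 ≤ i ∧ i < j ∧ j ≤ n ∧ z = a i + a j + ((j : ℤ) - i)}

/-- Property `P(c)`: there are `δ > 0` and `n₀` such that `|S(a)| ≥ δ n ^ c` for all `n ≥ n₀` and all sequences
`a_1, ..., a_n` of nonnegative integers with `a_i ≤ n ^ c`. -/
def P (c : ℝ) : Prop := ∃ δ : ℝ, 0 < δ ∧ ∃ n₀ : ℕ, ∀ n : ℕ, n₀ ≤ n → ∀ a : ℕ → ℕ,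
  (∀ i, 1 ≤ i → i ≤ n → (a i : ℝ) ≤ (n : ℝ) ^ c) → δ * (n : ℝ) ^ c ≤ (S n a).ncard

/-- `c' = sup {c ∈ [0, 1] : P(c) holds}`. -/
noncomputable def cPrime : ℝ := sSup {c : ℝ | 0 ≤ c ∧ c ≤ 1 ∧ P c}

theorem conv (x y c : ℝ) (hy : 0 < y) (hxy : x < 2 * y) (h : 1 / (2 - x / y) < c) :
    0 < c ∧ x + (1 / c - 2) * y < 0 := by
  have h1 : x / y < 2 := by rwa [div_lt_iff₀ hy]
  have h2 : 0 < 2 - x / y := by linarith
  have h3 : 0 < c := (by positivity : (0 : ℝ) < 1 / (2 - x / y)).trans h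
  refine ⟨h3, ?_⟩
  have h4 : 1 / c < 2 - x / y := by
    rw [div_lt_iff₀ h2] at h
    rw [div_lt_iff₀ h3]
    linarith
  have h5 : (1 / c - 2) * y < (-(x / y)) * y := mul_lt_mul_of_pos_right (by linarith) hy
  have h6 : (-(x / y)) * y = -x := by field_simp
  linarith

theorem sup_le (x y : ℝ) (hy : 0 < y) (hxy : x < 2 * y)
    (h : ∀ c : ℝ, 1 / (2 - x / y) < c → c ≤ 1 → ¬ P c) : cPrime ≤ 1 / (2 - x / y) := by
  have h1 : x / y < 2 := by rwa [div_lt_iff₀ hy]
  have h2 : 0 < 2 - x / y := by linarith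
  refine Real.sSup_le ?_ (by positivity)
  rintro c ⟨-, hc1, hc⟩
  by_contra hcon
  push Not at hcon
  exact h c hcon hc1 hc

/-- **Upper bounds for `c'`.** (1) For all finite sets `A, B ⊆ ℤ^d` with `|A + B| < |A - B|` the property `P(c)` fails
for every `c ≤ 1` larger than `1 / (2 - log |A+B| / log |A-B|)`; hence this number is an upper bound for `c'`.
(2) `P(c)` fails for every `c ≤ 1` larger than `1 / (2 - log 2 / log (1 + √2))`, and `c'` is at most this number,
(3) which is less than `0.8241`. -/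
theorem result :
    (∀ (d : ℕ) (A B : Finset (Fin d → ℤ)), (A + B).card < (A - B).card →
      (∀ c : ℝ, 1 / (2 - Real.log (A + B).card / Real.log (A - B).card) < c → c ≤ 1 → ¬ P c) ∧
      cPrime ≤ 1 / (2 - Real.log (A + B).card / Real.log (A - B).card)) ∧
    (∀ c : ℝ, 1 / (2 - Real.log 2 / Real.log (1 + √2)) < c → c ≤ 1 → ¬ P c) ∧
    cPrime ≤ 1 / (2 - Real.log 2 / Real.log (1 + √2)) ∧
    1 / (2 - Real.log 2 / Real.log (1 + √2)) < 0.8241 := by
  have hsqpos : (0 : ℝ) ≤ √2 := Real.sqrt_nonneg 2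
  have hsq : √(2 : ℝ) ^ 2 = 2 := Real.sq_sqrt (by norm_num)
  have hs1 : (1.4142 : ℝ) < √2 := by
    rw [Real.lt_sqrt (by norm_num)]
    norm_num
  have hL : 0 < Real.log (1 + √2) := Real.log_pos (by linarith)
  have hlog2 : 0 < Real.log 2 := Real.log_pos (by norm_num)
  have hnum : Real.log 2 < 0.7865 * Real.log (1 + √2) := by
    have e1 : Real.log ((2 : ℝ) ^ 192) < Real.log ((2.4142 : ℝ) ^ 151) :=
      Real.log_lt_log (by positivity) (by norm_num)
    rw [Real.log_pow, Real.log_pow] at e1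
    have e2 : Real.log 2.4142 ≤ Real.log (1 + √2) := Real.log_le_log (by norm_num) (by linarith)
    push_cast at e1
    linarith
  have h2 : ∀ c : ℝ, 1 / (2 - Real.log 2 / Real.log (1 + √2)) < c → c ≤ 1 → ¬ P c := by
    intro c hc hc1
    obtain ⟨hc0, hneg⟩ := conv _ _ c hL (by linarith) hc
    exact Q320.SD.limit c hc0 hc1 hneg
  refine ⟨?_, h2, sup_le _ _ hL (by linarith) h2, ?_⟩
  · intro d A B hAB
    have hne : (A - B).Nonempty := Finset.card_pos.1 (by omega)
    have hs1 : 1 ≤ (A + B).card := by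
      obtain ⟨z, hz⟩ := hne
      obtain ⟨x, hx, y, hy, -⟩ := Finset.mem_sub.1 hz
      exact Finset.card_pos.2 ⟨x + y, Finset.add_mem_add hx hy⟩
    have hD : 2 ≤ (A - B).card := by omega
    have hDR : (1 : ℝ) < ((A - B).card : ℝ) := by exact_mod_cast hD
    have hy : 0 < Real.log (A - B).card := Real.log_pos hDR
    have hx : Real.log (A + B).card < 2 * Real.log (A - B).card := by
      have : Real.log (A + B).card < Real.log (A - B).card :=
        Real.log_lt_log (by exact_mod_cast hs1) (by exact_mod_cast hAB)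
      linarith
    have h1 : ∀ c : ℝ, 1 / (2 - Real.log (A + B).card / Real.log (A - B).card) < c → c ≤ 1 → ¬ P c := by
      intro c hc hc1
      obtain ⟨hc0, hneg⟩ := conv _ _ c hy hx hc
      exact Q320.SD.main Q320.SD.taskHom Q320.SD.taskCover d A B hD c hc0 hc1 hneg
    exact ⟨h1, sup_le _ _ hy hx h1⟩
  · have e1 : Real.log 2 / Real.log (1 + √2) < 0.7865 := by rwa [div_lt_iff₀ hL]
    rw [div_lt_iff₀ (by linarith)]
    linarith

end Pool.Agent.Results.MP_15e61c_co.SumsAndDifferences
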