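import Mathlib
import Pool.Agent.Q320.SD.Low
import Pool.Agent.Q320.SD.TThree
import Pool.Agent.Q320.SD.TChain
import Pool.Agent.Q320.SD.TLoc
import Pool.Agent.Q320.SD.TSum

/-!
# Distinct values of `a_i + a_j + (j - i)`: the lower bound `c' ≥ 3/4`

Cut `1, ..., n` into blocks of length `N = n ^ c`. The sets `P_t + Q_s` (`P_t` the numbers `a_j + j`, `Q_s` the numbers
`a_i - i` of the blocks `t > s`) lie in `S(a)` and, for different `t - s`, essentially in different intervals. By the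
inequalities of Ruzsa and Plünnecke many of them have at least `N ^ (2/3 - ε)` elements, so that `|S(a)| ≥ n ^ (1 - c/3 - ε)`.
-/

set_option autoImplicit false

namespace Pool.Agent.Results.MP_15e61c_co.ThreeQuarters

/-- The set `S(a) = {a_i + a_j + (j - i) : 1 ≤ i < j ≤ n}` of a sequence `a_1, ..., a_n`. -/
def S (n : ℕ) (a : ℕ → ℕ) : Set ℤ :=
  {z | ∃ i j : ℕ, 1 ≤ i ∧ i < j ∧ j ≤ n ∧ z = a i + a j + ((j : ℤ) - i)}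

/-- Property `P(c)`: there are `δ > 0` and `n₀` such that `|S(a)| ≥ δ n ^ c` for all `n ≥ n₀` and all sequences
`a_1, ..., a_n` of nonnegative integers with `a_i ≤ n ^ c`. -/
def P (c : ℝ) : Prop := ∃ δ : ℝ, 0 < δ ∧ ∃ n₀ : ℕ, ∀ n : ℕ, n₀ ≤ n → ∀ a : ℕ → ℕ,
  (∀ i, 1 ≤ i → i ≤ n → (a i : ℝ) ≤ (n : ℝ) ^ c) → δ * (n : ℝ) ^ c ≤ (S n a).ncard

/-- `c' = sup {c ∈ [0, 1] : P(c) holds}`. -/
noncomputable def cPrime : ℝ := sSup {c : ℝ | 0 ≤ c ∧ c ≤ 1 ∧ P c}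

/-- **The lower bound `c' ≥ 3/4`.** For every `c ∈ [0, 1)` and `ε > 0` there are `δ > 0` and `n₀` such that
`|S(a)| ≥ δ n ^ (1 - c/3 - ε)` for all `n ≥ n₀` and all sequences of nonnegative integers `a_i ≤ n ^ c`. So `P(c)`
holds for every `c ∈ [0, 3/4)`, and `c' ≥ 3/4`. -/
theorem result :
    (∀ c ε : ℝ, 0 ≤ c → c < 1 → 0 < ε → ∃ δ : ℝ, 0 < δ ∧ ∃ n₀ : ℕ, ∀ n : ℕ, n₀ ≤ n → ∀ a : ℕ → ℕ,
      (∀ i, 1 ≤ i → i ≤ n → (a i : ℝ) ≤ (n : ℝ) ^ c) → δ * (n : ℝ) ^ (1 - c / 3 - ε) ≤ (S n a).ncard) ∧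
    (∀ c : ℝ, 0 ≤ c → c < 3 / 4 → P c) ∧ 3 / 4 ≤ cPrime := by
  have h1 : ∀ c ε : ℝ, 0 ≤ c → c < 1 → 0 < ε → ∃ δ : ℝ, 0 < δ ∧ ∃ n₀ : ℕ, ∀ n : ℕ, n₀ ≤ n → ∀ a : ℕ → ℕ,
      (∀ i, 1 ≤ i → i ≤ n → (a i : ℝ) ≤ (n : ℝ) ^ c) → δ * (n : ℝ) ^ (1 - c / 3 - ε) ≤ (S n a).ncard :=
    fun c ε hc0 hc hε => Q320.SD.lower Q320.SD.taskThree Q320.SD.taskChain Q320.SD.taskLoc Q320.SD.taskSum
      c ε hc0 hc hε
  have h2 : ∀ c : ℝ, 0 ≤ c → c < 3 / 4 → P c := by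
    intro c hc0 hc
    have h := h1 c (1 - 4 * c / 3) hc0 (by linarith) (by linarith)
    have e : 1 - c / 3 - (1 - 4 * c / 3) = c := by ring
    rw [e] at h
    exact h
  refine ⟨h1, h2, ?_⟩
  by_contra hcon
  push Not at hcon
  have hbdd : BddAbove {c : ℝ | 0 ≤ c ∧ c ≤ 1 ∧ P c} := ⟨1, fun c hc => hc.2.1⟩
  have hnn : 0 ≤ cPrime := le_csSup hbdd ⟨le_refl 0, by norm_num, h2 0 (le_refl 0) (by norm_num)⟩
  have h3 : (cPrime + 3 / 4) / 2 ≤ cPrime :=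
    le_csSup hbdd ⟨by linarith, by linarith, h2 _ (by linarith) (by linarith)⟩
  linarith

end Pool.Agent.Results.MP_15e61c_co.ThreeQuarters
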